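import Pool.Agent.H.MP_fb0356_an.B

set_option autoImplicit false

namespace Pool.Agent.H.MP_76c0db_an

open scoped Topology
open Filter Real
open Pool.Agent.H.MP_fb0356_an (tr tr_apply tr_inv tr_add)

def P2 : Subgroup (Equiv.Perm ℝ) where
  carrier := {F | ContDiff ℝ 2 F ∧ ContDiff ℝ 2 ⇑F⁻¹ ∧ StrictMono F}
  one_mem' := ⟨contDiff_id, contDiff_id, strictMono_id⟩
  mul_mem' := fun ha hb => ⟨ha.1.comp hb.1, hb.2.1.comp ha.2.1, ha.2.2.comp hb.2.2⟩
  inv_mem' := fun {F} ha => ⟨ha.2.1, ha.1, fun x y h => ha.2.2.lt_iff_lt.1 (by simpa using h)⟩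

def D2 : Subgroup (Equiv.Perm ℝ) where
  carrier := {F | F ∈ P2 ∧ ∀ x, F (x + 1) = F x + 1}
  one_mem' := ⟨one_mem _, fun _ => rfl⟩
  mul_mem' := fun ha hb => ⟨mul_mem ha.1 hb.1, fun x => by simp [ha.2, hb.2]⟩
  inv_mem' := fun {F} ha => ⟨inv_mem ha.1, fun x => F.injective (by simp [ha.2])⟩

variable {f g : Equiv.Perm ℝ}

lemma d1 {u : ℝ → ℝ} (h : ContDiff ℝ 2 u) : Differentiable ℝ u := h.differentiable (by simp)
lemma c1 {u : ℝ → ℝ} (h : ContDiff ℝ 2 u) : ContDiff ℝ 1 (deriv u) := ContDiff.deriv' h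
lemma d2 {u : ℝ → ℝ} (h : ContDiff ℝ 2 u) : Differentiable ℝ (deriv u) :=
  (c1 h).differentiable (by simp)

lemma pos (hf : f ∈ P2) (x : ℝ) : 0 < deriv f x := by
  refine hf.2.2.monotone.deriv_nonneg.lt_of_ne' fun h => ?_
  have := deriv_comp x (d1 hf.2.1 (f x)) (d1 hf.1 x)
  rw [h, mul_zero, show ⇑f⁻¹ ∘ f = id by ext; simp, deriv_id] at this
  exact one_ne_zero this

lemma D_mul (hf : f ∈ P2) (hg : g ∈ P2) (x : ℝ) : deriv ⇑(f * g) x = deriv f (g x) * deriv g x :=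
  deriv_comp x (d1 hf.1 _) (d1 hg.1 x)

noncomputable def nl (u : ℝ → ℝ) (x : ℝ) : ℝ := deriv (deriv u) x / deriv u x

lemma nl_mul (hf : f ∈ P2) (hg : g ∈ P2) (x : ℝ) :
    nl ⇑(f * g) x = nl f (g x) * deriv g x + nl g x := by
  have := pos hf (g x)
  have := pos hg x
  have h : HasDerivAt (fun x => deriv f (g x) * deriv g x) _ x := ((d2 hf.1 _).hasDerivAt.comp x
    (d1 hg.1 x).hasDerivAt).mul (d2 hg.1 x).hasDerivAt
  rw [nl, D_mul hf hg, funext (D_mul hf hg), h.deriv, nl, nl]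
  simp only [Function.comp]; field_simp

lemma nl_cont (hf : f ∈ P2) : Continuous (nl f) :=
  ((c1 hf.1).continuous_deriv le_rfl).div (d2 hf.1).continuous fun x => (pos hf x).ne'

lemma mvt {u : ℝ → ℝ} (hu : Differentiable ℝ u) (y z : ℝ) :
    ∃ ξ ∈ Set.uIcc y z, u z - u y = deriv u ξ * (z - y) := by
  rcases lt_trichotomy y z with h | rfl | h
  · obtain ⟨c, hc, e⟩ := exists_deriv_eq_slope u h hu.continuous.continuousOn hu.differentiableOn
    exact ⟨c, Set.mem_uIcc_of_le hc.1.le hc.2.le, by rw [e, div_mul_cancel₀ _ (sub_pos.2 h).ne']⟩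
  · exact ⟨y, by simp⟩
  · obtain ⟨c, hc, e⟩ := exists_deriv_eq_slope u h hu.continuous.continuousOn hu.differentiableOn
    exact ⟨c, Set.mem_uIcc_of_ge hc.1.le hc.2.le, by
      have := sub_pos.2 h; rw [e]; field_simp; ring⟩

lemma log_lip' (hf : f ∈ P2) {V : ℝ} (y z : ℝ) (h : ∀ x ∈ Set.uIcc y z, |nl f x| ≤ V) :
    |log (deriv f z) - log (deriv f y)| ≤ V * |z - y| := by
  have hd := fun x => (d2 hf.1 x).hasDerivAt.log (pos hf x).ne'
  obtain ⟨ξ, hξ, e⟩ := mvt (fun x => (hd x).differentiableAt) y z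
  rw [e, (hd ξ).deriv, abs_mul]
  exact mul_le_mul_of_nonneg_right (h ξ hξ) (abs_nonneg _)

lemma log_lip (hf : f ∈ P2) {V : ℝ} (h : ∀ x, |nl f x| ≤ V) (y z : ℝ) :
    |log (deriv f z) - log (deriv f y)| ≤ V * |z - y| := log_lip' hf y z fun x _ => h x

lemma per1 (hf : f ∈ D2) : Function.Periodic (deriv f) 1 := fun x => by
  rw [← deriv_comp_add_const, funext hf.2, deriv_add_const]

lemma per2 (hf : f ∈ D2) : Function.Periodic (deriv (deriv f)) 1 := fun x => by
  rw [← deriv_comp_add_const, funext (per1 hf)]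

lemma exmax {u : ℝ → ℝ} (hu : Continuous u) (hp : Function.Periodic u 1) : ∃ y, ∀ x, u x ≤ u y := by
  obtain ⟨y, -, h⟩ := (isCompact_Icc (a := (0 : ℝ)) (b := 1)).exists_isMaxOn (by simp) hu.continuousOn
  refine ⟨y, fun x => ?_⟩
  obtain ⟨z, hz, e⟩ := hp.exists_mem_Ico₀ one_pos x
  exact e ▸ h (Set.Ico_subset_Icc_self hz)

lemma ucont {u : ℝ → ℝ} (hu : Continuous u) (hp : Function.Periodic u 1) {ε : ℝ} (hε : 0 < ε) :
    ∃ M > 0, ∀ a b, |a - b| < M → |u a - u b| < ε := by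
  obtain ⟨M, hM, h⟩ := Metric.uniformContinuousOn_iff.1 ((isCompact_Icc (a := (-1 : ℝ))
    (b := 2)).uniformContinuousOn_of_continuous hu.continuousOn) ε hε
  refine ⟨min M 1, by positivity, fun a b hab => ?_⟩
  rw [lt_min_iff] at hab
  have h1 := Int.floor_le b
  have h2 := Int.lt_floor_add_one b
  have h3 := abs_lt.1 hab.2
  have := h (a - ⌊b⌋ * 1) ⟨by linarith, by linarith⟩ (b - ⌊b⌋ * 1) ⟨by linarith, by linarith⟩
    (by rw [Real.dist_eq, sub_sub_sub_cancel_right]; exact hab.1)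
  rwa [hp.sub_int_mul_eq, hp.sub_int_mul_eq] at this

lemma nl_max (hf : f ∈ D2) : ∃ y, ∀ x, |nl f x| ≤ |nl f y| :=
  exmax (nl_cont hf.1).abs fun x => by simp only [nl, per1 hf x, per2 hf x]

noncomputable def Q (u : ℝ → ℝ) (y z : ℝ) : ℝ := nl u y / 2 - 1 / (z - y) + deriv u y / (u z - u y)

lemma Q_mul (hf : f ∈ P2) (hg : g ∈ P2) (y z : ℝ) :
    Q ⇑(f * g) y z = Q g y z + deriv g y * Q f (g y) (g z) := by
  simp only [Q, nl_mul hf hg, D_mul hf hg, Equiv.Perm.mul_apply]; ring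

lemma Q_small (hf : f ∈ D2) {ε : ℝ} (hε : 0 < ε) :
    ∃ M > 0, ∀ y z, y ≠ z → |z - y| ≤ M → |Q f y z| ≤ ε := by
  obtain ⟨a, ha⟩ := exmax (u := fun x => -deriv f x) (d2 hf.1.1).continuous.neg
    fun x => by simp only [per1 hf x]
  have hc := (c1 hf.1.1).continuous_deriv le_rfl
  obtain ⟨b, hb⟩ := exmax hc.abs fun x => by simp only [per2 hf x]
  have c0 := pos hf.1 a
  generalize deriv f a = c at ha c0
  generalize |deriv (deriv f) b| = B at hb
  have B0 := (abs_nonneg _).trans (hb 0)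
  obtain ⟨M, hM, h⟩ := ucont hc (per2 hf) (show 0 < ε * c / 2 by positivity)
  refine ⟨min (M / 2) (ε * c ^ 2 / (B ^ 2 + 1)), by positivity, fun y z hyz h1 => ?_⟩
  rw [le_min_iff, le_div_iff₀ (by positivity : 0 < B ^ 2 + 1)] at h1
  have e1 : ∀ t, HasDerivAt (fun t => deriv f t - deriv (deriv f) y * (t - y))
      (deriv (deriv f) t - deriv (deriv f) y * 1) t := fun t =>
    (d2 hf.1.1 t).hasDerivAt.sub (((hasDerivAt_id t).sub_const y).const_mul _)
  have e2 : ∀ t, HasDerivAt (fun t => f t - deriv f y * (t - y) - deriv (deriv f) y / 2 * (t - y) ^ 2)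
      (deriv f t - deriv (deriv f) y * (t - y) - deriv f y) t := fun t =>
    (((d1 hf.1.1 t).hasDerivAt.sub (((hasDerivAt_id t).sub_const y).const_mul _)).sub
      ((((hasDerivAt_id t).sub_const y).pow 2).const_mul _)).congr_deriv (by simp; ring)
  obtain ⟨s, hs, e3⟩ := mvt (fun t => (e2 t).differentiableAt) y z
  obtain ⟨t, ht, e4⟩ := mvt (fun t => (e1 t).differentiableAt) y s
  obtain ⟨r, hr, e5⟩ := mvt (d1 hf.1.1) y z
  obtain ⟨v, -, e6⟩ := mvt (d2 hf.1.1) y r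
  rw [(e2 s).deriv] at e3
  rw [(e1 t).deriv, mul_one] at e4
  have h2 := Set.abs_sub_left_of_mem_uIcc hs
  have h3 := Set.abs_sub_left_of_mem_uIcc hr
  have h4 := h t y (by linarith [Set.abs_sub_left_of_mem_uIcc ht])
  have h5 := sub_ne_zero.2 hyz.symm
  have h6 := pos hf.1 y
  have h7 := pos hf.1 r
  have e7 : Q f y z = deriv (deriv f) y * (deriv (deriv f) v * (r - y)) / (2 * deriv f y * deriv f r) -
      (deriv (deriv f) t - deriv (deriv f) y) * (s - y) / ((z - y) * deriv f r) := by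
    have e8 : deriv f r - deriv f y - deriv (deriv f) y / 2 * (z - y) =
        deriv f s - deriv (deriv f) y * (s - y) - deriv f y :=
      mul_right_cancel₀ h5 (by linear_combination e3 - e5)
    rw [← e6, ← e4, Q, nl, e5]; field_simp
    linear_combination (-2 * deriv f y) * e8
  have h8 := ha y
  have h9 := ha r
  rw [e7]
  refine (abs_sub _ _).trans (le_of_le_of_eq (add_le_add (?_ : _ ≤ ε / 2) (?_ : _ ≤ ε / 2)) (by ring))
  · rw [abs_div, div_le_iff₀ (by positivity), abs_mul, abs_mul, abs_of_pos (a := 2 * _ * _) (by positivity)]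
    refine (mul_le_mul (hb y) (mul_le_mul (hb v) h3 (abs_nonneg _) B0) (by positivity) B0).trans ?_
    nlinarith [mul_le_mul (neg_le_neg_iff.1 h8) (neg_le_neg_iff.1 h9) c0.le h6.le, abs_nonneg (z - y)]
  · rw [abs_div, div_le_iff₀ (by positivity), abs_mul, abs_mul, abs_of_pos h7]
    refine (mul_le_mul h4.le h2 (abs_nonneg _) (by positivity)).trans ?_
    nlinarith [mul_le_mul_of_nonneg_left (neg_le_neg_iff.1 h9) (mul_pos hε (abs_pos.2 h5)).le]

lemma log_pow (hf : f ∈ P2) {V : ℝ} (h : ∀ x, |nl f x| ≤ V) (y z : ℝ) (l : ℕ) :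
    |log (deriv ⇑(f ^ l) z) - log (deriv ⇑(f ^ l) y)| ≤
      V * ∑ i ∈ Finset.range l, |(f ^ i) z - (f ^ i) y| := by
  induction l with
  | zero => simp
  | succ l ih =>
    have hl := pow_mem hf l
    rw [pow_succ', D_mul hf hl, D_mul hf hl, log_mul (pos hf _).ne' (pos hl _).ne',
      log_mul (pos hf _).ne' (pos hl _).ne', Finset.sum_range_succ, mul_add, add_sub_add_comm,
      add_comm]
    exact (abs_add_le _ _).trans (add_le_add ih (log_lip hf h _ _))

theorem key1 (hf : f ∈ D2) (C : ℝ) {κ : ℝ} (hκ : 0 < κ) : ∃ M > 0, ∀ (l : ℕ) (m : ℝ),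
    (∀ y z, |z - y| ≤ m → (∀ i : ℕ, |(f ^ i) z - (f ^ i) y| ≤ M) ∧
      ∑ i ∈ Finset.range l, |(f ^ i) z - (f ^ i) y| ≤ C) → ∀ y, |nl ⇑(f ^ l) y| * m ≤ κ := by
  wlog h1 : κ < 1 generalizing κ
  · obtain ⟨M, hM, h⟩ := this one_half_pos one_half_lt_one
    exact ⟨M, hM, fun l m h2 y => (h l m h2 y).trans (by linarith)⟩
  have e0 : 0 < exp κ - 1 := sub_pos.2 (one_lt_exp_iff.2 hκ)
  have c0 : 0 < κ / 2 - 1 + κ / (exp κ - 1) := by
    have h2 := lt_log_one_add_of_pos (show 0 < 2 * κ / (2 - κ) from div_pos (by linarith) (by linarith))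
    have h3 : 0 < 2 - κ := by linarith
    rw [show 2 * (2 * κ / (2 - κ)) / (2 * κ / (2 - κ) + 2) = κ by field_simp; ring,
      lt_log_iff_exp_lt (by positivity), ← sub_lt_iff_lt_add', lt_div_iff₀ h3] at h2
    rw [← sub_lt_iff_lt_add', lt_div_iff₀ e0]; linarith
  obtain ⟨b, hb⟩ := nl_max hf
  generalize |nl f b| = V at hb
  have V0 := (abs_nonneg _).trans (hb 0)
  obtain ⟨M, hM, hQ⟩ := Q_small hf (div_pos c0 (show 0 < exp (V * C) * |C| + 1 by positivity))
  generalize hε : (κ / 2 - 1 + κ / (exp κ - 1)) / (exp (V * C) * |C| + 1) = ε at hQ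
  have ε0 : 0 < ε := hε ▸ div_pos c0 (by positivity)
  refine ⟨M, hM, fun l m h y0 => not_lt.1 fun h2 => ?_⟩
  have hg := pow_mem hf l
  obtain ⟨y, hy⟩ := nl_max hg
  have n0 : nl ⇑(f ^ l) y ≠ 0 := fun h3 => by
    have := hy y0
    rw [h3, abs_zero, abs_nonpos_iff] at this
    rw [this] at h2; simp at h2; linarith
  have m0 : 0 < m := not_le.1 fun h3 => by nlinarith [abs_nonneg (nl ⇑(f ^ l) y0)]
  obtain ⟨z, hz⟩ : ∃ z, z - y = κ / nl ⇑(f ^ l) y := ⟨y + _, add_sub_cancel_left _ _⟩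
  have h3 : |z - y| ≤ m := by
    rw [hz, abs_div, abs_of_pos hκ, div_le_iff₀ (abs_pos.2 n0)]
    nlinarith [hy y0]
  have h4 : z - y ≠ 0 := hz ▸ div_ne_zero hκ.ne' n0
  have h5 : ∀ i ≤ l, |(z - y) * Q ⇑(f ^ i) y z| ≤
      ε * exp (V * C) * ∑ j ∈ Finset.range i, |(f ^ j) z - (f ^ j) y| := fun i hi => by
    induction i with
    | zero => simp [Q, nl]
    | succ i ih =>
      have hl := (pow_mem hf i).1
      rw [pow_succ', Q_mul hf.1 hl, mul_add, Finset.sum_range_succ, mul_add]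
      refine (abs_add_le _ _).trans (add_le_add (ih (by omega)) ?_)
      obtain ⟨ξ, hξ, e⟩ := mvt (d1 hl.1) y z
      have h6 := (log_pow hf.1 hb y ξ i).trans (mul_le_mul_of_nonneg_left
        ((Finset.sum_le_sum_of_subset_of_nonneg (Finset.range_mono (by omega : i ≤ l))
        fun _ _ _ => abs_nonneg _).trans (h y ξ ((Set.abs_sub_left_of_mem_uIcc hξ).trans h3)).2) V0)
      have h7 : deriv ⇑(f ^ i) y ≤ exp (V * C) * deriv ⇑(f ^ i) ξ := by
        rw [← log_le_log_iff (pos hl _) (mul_pos (exp_pos _) (pos hl _)),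
          log_mul (exp_pos _).ne' (pos hl _).ne', log_exp]
        linarith [(abs_le.1 h6).1]
      have h8 := hQ _ _ ((f ^ i).injective.ne (sub_ne_zero.1 h4).symm) ((h y z h3).1 i)
      rw [e, abs_mul, abs_mul, abs_mul, abs_of_pos (pos hl y), abs_of_pos (pos hl ξ)]
      nlinarith [mul_le_mul h7 h8 (abs_nonneg _) (mul_pos (exp_pos _) (pos hl ξ)).le,
        abs_nonneg (z - y)]
  have h6 := (le_abs_self _).trans ((h5 l le_rfl).trans (mul_le_mul_of_nonneg_left
    ((h y z h3).2.trans (le_abs_self C)) (by positivity)))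
  have h7 : ε * (exp (V * C) * |C| + 1) = κ / 2 - 1 + κ / (exp κ - 1) := by
    rw [← hε]; field_simp
  generalize f ^ l = g at *
  have e1 : ∀ t, HasDerivAt (fun t => deriv g y / nl g y * exp (nl g y * (t - y)) - g t)
      (deriv g y * exp (nl g y * (t - y)) - deriv g t) t := fun t =>
    ((((((hasDerivAt_id t).sub_const y).const_mul _).exp).const_mul _).sub
      (d1 hg.1.1 t).hasDerivAt).congr_deriv (by simp only [id]; field_simp)
  obtain ⟨ξ, hξ, e2⟩ := mvt (fun t => (e1 t).differentiableAt) y z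
  obtain ⟨r, -, e3⟩ := mvt (d1 hg.1.1) y z
  have e4 : nl g y * (z - y) = κ := by rw [hz]; field_simp
  have h8 : deriv g ξ ≤ deriv g y * exp (nl g y * (ξ - y)) := by
    rw [← log_le_log_iff (pos hg.1 _) (mul_pos (pos hg.1 _) (exp_pos _)),
      log_mul (pos hg.1 _).ne' (exp_pos _).ne', log_exp]
    have h9 := (le_abs_self _).trans (log_lip hg.1 hy y ξ)
    rw [← abs_mul, abs_of_nonneg] at h9
    · linarith
    · refine not_lt.1 fun h11 => ?_
      rcases Set.mem_uIcc.1 hξ with h | h <;> rcases lt_or_gt_of_ne n0 with h12 | h12 <;>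
        nlinarith [h.1, h.2]
  rw [(e1 ξ).deriv, e4, sub_self, mul_zero, exp_zero] at e2
  have h9 := pos hg.1 r
  have h10 := pos hg.1 y
  have e5 : deriv g y * (exp κ - 1) - κ * deriv g r =
      κ * (deriv g y * exp (nl g y * (ξ - y)) - deriv g ξ) := by
    have : deriv g y / nl g y * nl g y = deriv g y := div_mul_cancel₀ _ n0
    linear_combination nl g y * e2 + nl g y * e3 - (exp κ - 1) * this +
      (deriv g r + deriv g y * exp (nl g y * (ξ - y)) - deriv g ξ) * e4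
  have e6 : (z - y) * Q g y z = κ / 2 - 1 + deriv g y / deriv g r := by
    rw [Q, e3, ← e4]; field_simp
  have h11 : κ / (exp κ - 1) ≤ deriv g y / deriv g r := by
    rw [div_le_div_iff₀ e0 h9]; nlinarith
  nlinarith

end Pool.Agent.H.MP_76c0db_an
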