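import Pool.Agent.H.MP_76c0db_an.A

set_option autoImplicit false

namespace Pool.Agent.H.MP_76c0db_an

open scoped Topology
open Filter Real
open Pool.Agent.H.MP_fb0356_an (tr tr_apply tr_inv tr_add)

variable {f g : Equiv.Perm ℝ}

lemma divs {a b : ℝ} (ha : 0 < a) (hb : 0 < b) :
    ∃ k : ℕ, k * b ≤ a ∧ a < (k + 1) * b ∧ (b < a → 0 < k) :=
  ⟨⌊a / b⌋₊, (le_div_iff₀ hb).1 (Nat.floor_le (by positivity)),
    (div_lt_iff₀ hb).1 (Nat.lt_floor_add_one _),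
    fun h => Nat.floor_pos.2 ((one_le_div hb).2 h.le)⟩

lemma fstep {τ : ℝ} (hτ : Irrational τ) {q q' : ℕ} {p p' : ℤ} (hq : 0 < q) (hq' : 0 < q')
    (hd : p' * q - p * q' = 1) (h1 : p < q * τ) (h2 : q' * τ < p') :
    ∃ Q Q' : ℕ, ∃ P P' : ℤ, (q ≤ Q ∧ (p + p' < (q + q') * τ → q < Q)) ∧ Q ≤ Q' ∧
      P' * Q - P * Q' = 1 ∧ P < Q * τ ∧ Q' * τ < P' ∧ P + P' < (Q + Q') * τ := by
  obtain ⟨k, k1, k2, k3⟩ := divs (sub_pos.2 h1) (sub_pos.2 h2)
  have h3 : ((p + k * p' : ℤ) : ℝ) < (q + k * q' : ℕ) * τ :=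
    lt_of_le_of_ne (by push_cast; linarith) ((hτ.natCast_mul (by omega)).ne_int _).symm
  obtain ⟨j, j1, j2, j3⟩ := divs (sub_pos.2 h2) (sub_pos.2 h3)
  have h4 := j3 (by push_cast; linarith)
  refine ⟨q + k * q', q' + j * (q + k * q'), p + k * p', p' + j * (p + k * p'),
    ⟨by omega, fun h => by nlinarith [k3 (by linarith)]⟩,
    (Nat.le_mul_of_pos_left _ h4).trans (Nat.le_add_left _ _), by push_cast; linarith, h3,
    lt_of_le_of_ne (by push_cast at *; linarith) ((hτ.natCast_mul (by omega)).ne_int _),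
    by push_cast at *; linarith⟩

lemma farey {τ : ℝ} (hτ : Irrational τ) (N : ℕ) : ∃ q q' : ℕ, ∃ p p' : ℤ, N < q ∧ q ≤ q' ∧
    p' * q - p * q' = 1 ∧ p < q * τ ∧ q' * τ < p' ∧ p + p' < (q + q') * τ := by
  induction N with
  | zero =>
    obtain ⟨Q, Q', P, P', h, h'⟩ := fstep hτ (p := ⌊τ⌋) (p' := ⌊τ⌋ + 1) one_pos one_pos (by simp)
      (by simpa using (Int.floor_le τ).lt_of_ne (hτ.ne_int _).symm) (by simp)
    exact ⟨Q, Q', P, P', h.1, h'⟩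
  | succ N ih =>
    obtain ⟨q, q', p, p', h1, h2, h3, h4, h5, h6⟩ := ih
    obtain ⟨Q, Q', P, P', h, h'⟩ := fstep hτ (by omega) (by omega) h3 h4 h5
    exact ⟨Q, Q', P, P', by have := h.2 h6; omega, h'⟩

def Good (f : Equiv.Perm ℝ) (q q' : ℕ) (p p' : ℤ) : Prop :=
  q ≤ q' ∧ p' * q - p * q' = 1 ∧ (∀ x, x + p < (f ^ q) x) ∧ (∀ x, (f ^ q') x < x + p') ∧
    ∀ x, x + (p + p' : ℤ) < (f ^ (q + q')) x

lemma D2_int (hf : f ∈ D2) (x : ℝ) (k : ℤ) : f (x + k) = f x + k := by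
  have : Function.Periodic (fun x => f x - x) 1 := fun x => by simp [hf.2]
  have := this.int_mul k x
  simp only [mul_one] at this; linarith

variable {q q' : ℕ} {p p' : ℤ}

lemma sum1 (h : Good f q q' p p') (y : ℝ) :
    ∑ i ∈ Finset.range q', ((f ^ q) ((f ^ i) y) - p - (f ^ i) y) ≤ 1 := by
  have h1 := Finset.sum_range_add (fun i => (f ^ i) y) q q'
  rw [add_comm q, Finset.sum_range_add] at h1
  simp only [pow_add, Equiv.Perm.mul_apply] at h1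
  have h2 := Finset.sum_le_sum fun i (_ : i ∈ Finset.range q) => (h.2.2.2.1 ((f ^ i) y)).le
  have h3 : (p' * q - p * q' : ℝ) = 1 := by exact_mod_cast h.2.1
  simp only [Finset.sum_add_distrib, Finset.sum_sub_distrib, Finset.sum_const, Finset.card_range,
    nsmul_eq_mul] at *
  linarith

lemma comm (f : Equiv.Perm ℝ) (i j : ℕ) (x : ℝ) : (f ^ i) ((f ^ j) x) = (f ^ j) ((f ^ i) x) := by
  rw [← Equiv.Perm.mul_apply, ← pow_add, add_comm, pow_add, Equiv.Perm.mul_apply]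

lemma itv (hf : f ∈ D2) {y z : ℝ} (h1 : y ≤ z) (h2 : z ≤ (f ^ q) y - p) (i : ℕ) :
    |(f ^ i) z - (f ^ i) y| ≤ (f ^ q) ((f ^ i) y) - p - (f ^ i) y := by
  have hi := pow_mem hf i
  have := hi.1.2.2.monotone h2
  rw [sub_eq_add_neg, ← Int.cast_neg, D2_int hi, comm, Int.cast_neg] at this
  rw [abs_of_nonneg (sub_nonneg.2 (hi.1.2.2.monotone h1))]; linarith

lemma sum2 (hf : f ∈ D2) (h : Good f q q' p p') {y z : ℝ} (h1 : y ≤ z) (h2 : z ≤ (f ^ q) y - p)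
    {l : ℕ} (hl : l ≤ q') : ∑ i ∈ Finset.range l, |(f ^ i) z - (f ^ i) y| ≤ 1 :=
  (Finset.sum_le_sum_of_subset_of_nonneg (Finset.range_mono hl) fun _ _ _ => abs_nonneg _).trans
    ((Finset.sum_le_sum fun i _ => itv hf h1 h2 i).trans (sum1 h y))

lemma denjoy (hf : f ∈ D2) {V : ℝ} (hV : ∀ x, |nl f x| ≤ V) (h : Good f q q' p p') (x : ℝ) :
    exp (-V) ≤ deriv ⇑(f ^ q) x + deriv ⇑(f ^ q)⁻¹ x := by
  have V0 := (abs_nonneg _).trans (hV 0)
  have hg := pow_mem hf q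
  have h1 : (f ^ q) ((f ^ q)⁻¹ x + p) - p = x := by rw [D2_int hg]; simp
  have h2 := (log_pow hf.1 hV _ x q).trans (mul_le_mul_of_nonneg_left (sum2 hf h
    (by linarith [h.2.2.1 ((f ^ q)⁻¹ x + p)]) h1.ge h.1) V0)
  have h3 := (per1 hg).int_mul p ((f ^ q)⁻¹ x)
  have h4 := D_mul hg.1 (inv_mem hg.1) x
  rw [mul_one] at h3
  rw [mul_inv_cancel, Equiv.Perm.coe_one, deriv_id] at h4
  have h5 := pos hg.1 x
  have h6 := pos hg.1 ((f ^ q)⁻¹ x)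
  have h7 := pos (inv_mem hg.1) x
  rw [h3] at h2
  have h8 : exp (-V) * deriv ⇑(f ^ q) ((f ^ q)⁻¹ x) ≤ deriv ⇑(f ^ q) x := by
    rw [← log_le_log_iff (by positivity) h5, log_mul (exp_pos _).ne' h6.ne', log_exp]
    linarith [(abs_le.1 h2).1]
  have h9 := exp_le_one_iff.2 (neg_nonpos.2 V0)
  have := exp_pos (-V)
  rcases le_total 1 (deriv ⇑(f ^ q) ((f ^ q)⁻¹ x)) with h | h <;> nlinarith

lemma small (hf : f ∈ D2) (hG : ∀ N, ∃ q q' p p', N < q ∧ Good f q q' p p') {M : ℝ} (hM : 0 < M) :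
    ∃ N, ∀ q q' p p', N < q → Good f q q' p p' → ∀ y, (f ^ q) y - p - y ≤ M := by
  obtain ⟨b, hb⟩ := nl_max hf
  obtain ⟨n, hn⟩ := exists_nat_gt (2 / (exp (-|nl f b|) * M))
  obtain ⟨s, s1, s2⟩ := (Set.infinite_of_forall_exists_gt (s := {q | ∃ q' p p', Good f q q' p p'})
    fun N => let ⟨q, q', p, p', h, h'⟩ := hG N; ⟨q, ⟨q', p, p', h'⟩, h⟩).exists_subset_card_eq n
  refine ⟨s.sup id, fun Q Q' P P' h1 h y => not_lt.1 fun h2 => ?_⟩
  have h3 := sum1 h ((f ^ (Q' - 1))⁻¹ y)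
  rw [← Finset.sum_range_reflect, Finset.sum_congr rfl
    (g := fun j => (f ^ Q) ((f ^ j)⁻¹ y) - P - (f ^ j)⁻¹ y) fun j hj => by
      obtain ⟨i, hi⟩ : ∃ i, Q' - 1 = j + i := ⟨Q' - 1 - j, by simp at hj; omega⟩
      simp [hi, pow_add]] at h3
  have h4 := add_le_add (sum1 h y) h3
  rw [← Finset.sum_add_distrib] at h4
  have h5 := (Finset.card_nsmul_le_sum s _ (exp (-|nl f b|) * M) fun j hj => ?_).trans
    ((Finset.sum_le_sum_of_subset_of_nonneg (fun j hj => Finset.mem_range.2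
      (((Finset.le_sup (f := id) hj).trans_lt h1).trans_le h.1))
      fun j _ _ => by linarith [h.2.2.1 ((f ^ j) y), h.2.2.1 ((f ^ j)⁻¹ y)]).trans h4)
  · rw [div_lt_iff₀ (by positivity)] at hn
    rw [s2, nsmul_eq_mul] at h5; linarith
  · obtain ⟨j', r, r', hj'⟩ := s1 hj
    have hg := pow_mem hf j
    have e := fun x => (d1 hg.1.1 x).hasDerivAt.add (d1 hg.1.2.1 x).hasDerivAt
    obtain ⟨ξ, -, e1⟩ := mvt (fun x => (e x).differentiableAt) y ((f ^ Q) y + (-P : ℤ))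
    have e2 : (f ^ j)⁻¹ ((f ^ Q) y) = (f ^ Q) ((f ^ j)⁻¹ y) := by
      rw [Equiv.Perm.inv_eq_iff_eq, comm]; simp
    rw [(e ξ).deriv, Pi.add_apply, Pi.add_apply, D2_int hg, D2_int (inv_mem hg), comm, e2,
      Int.cast_neg] at e1
    nlinarith [mul_le_mul (denjoy hf hb hj' ξ) h2.le hM.le
      (add_pos (pos hg.1 _) (pos (inv_mem hg.1) _)).le]

end Pool.Agent.H.MP_76c0db_an
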