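import Pool.Agent.H.MP_76c0db_an.B

set_option autoImplicit false

namespace Pool.Agent.H.MP_76c0db_an

open scoped Topology
open Filter Real
open Pool.Agent.H.MP_fb0356_an (tr tr_apply tr_inv tr_add)

variable {f g : Equiv.Perm ℝ}

lemma pinv2 (e : ℝ → Equiv.Perm ℝ) (he : ContDiff ℝ 2 fun p : ℝ × ℝ => e p.1 p.2)
    (hd : ∀ κ x, deriv (e κ) x ≠ 0) : ContDiff ℝ 2 fun p : ℝ × ℝ => (e p.1)⁻¹ p.2 := by
  let E : ℝ × ℝ ≃ ℝ × ℝ := Equiv.prodCongrRight e
  have h1 : ContDiff ℝ 2 E := contDiff_fst.prodMk he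
  have h2 : ∀ p, HasStrictFDerivAt E (fderiv ℝ E p) p := fun p =>
    h1.contDiffAt.hasStrictFDerivAt (by simp)
  have h3 : ∀ p, Function.Injective (fderiv ℝ E p).toLinearMap := fun p => by
    rw [injective_iff_map_eq_zero]
    rintro ⟨a, b⟩ h
    have h4 := congrArg (· (a, b)) ((h2 p).hasFDerivAt.fst.unique hasFDerivAt_fst)
    have h5 := ((ContinuousLinearMap.snd ℝ ℝ ℝ).hasFDerivAt.comp_hasDerivAt p.2
      (HasFDerivAt.comp_hasDerivAt (l := E) p.2 (h2 p).hasFDerivAt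
      ((hasDerivAt_const p.2 p.1).prodMk (hasDerivAt_id p.2)))).deriv
    change deriv (e p.1) p.2 = (fderiv ℝ E p (0, 1)).2 at h5
    change fderiv ℝ E p (a, b) = 0 at h
    obtain rfl : a = 0 := by simpa [h] using h4.symm
    rw [show ((0 : ℝ), b) = b • ((0 : ℝ), (1 : ℝ)) by simp, map_smul] at h
    have h6 := congrArg Prod.snd h
    rw [Prod.smul_snd, ← h5] at h6
    simpa using (mul_eq_zero.1 h6).resolve_right (hd p.1 p.2)
  let f' : ℝ × ℝ → (ℝ × ℝ) ≃L[ℝ] (ℝ × ℝ) := fun p =>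
    (LinearEquiv.ofInjectiveEndo _ (h3 p)).toContinuousLinearEquiv
  exact ((E.toHomeomorphOfContinuousOpen h1.continuous (isOpenMap_of_hasStrictFDerivAt_equiv
    (f' := f') h2)).contDiff_symm (f₀' := f') (fun p => (h2 p).hasFDerivAt) h1).snd

lemma mkP2 {K : ℝ → ℝ} (hK : ContDiff ℝ 2 K) (hd : ∀ x, 0 < deriv K x) {ρ d : ℝ}
    (h0 : 0 < d) (h : ∀ x, K x + d ≤ K (x + ρ)) : ∃ k ∈ P2, ⇑k = K := by
  have h1 : ∀ (n : ℕ) x, K x + n * d ≤ K (x + n * ρ) := fun n x => by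
    induction n with
    | zero => simp
    | succ n ih => push_cast; rw [add_one_mul, add_one_mul, ← add_assoc x]; linarith [h (x + n * ρ)]
  have h2 := strictMono_of_deriv_pos hd
  have h3 : K.Surjective := fun y => by
    obtain ⟨n, hn⟩ := exists_nat_gt (|y - K 0| / d)
    rw [div_lt_iff₀ h0, abs_lt] at hn
    have h4 := h1 n (-(n * ρ))
    rw [neg_add_cancel] at h4
    exact intermediate_value_univ (-(n * ρ)) (0 + n * ρ) hK.continuous
      ⟨by linarith, by linarith [h1 n 0]⟩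
  exact ⟨Equiv.ofBijective K ⟨h2.injective, h3⟩, ⟨hK, (pinv2 (fun _ => Equiv.ofBijective K
    ⟨h2.injective, h3⟩) (hK.comp contDiff_snd) fun _ x => (hd x).ne').comp
    ((contDiff_const (c := (0 : ℝ))).prodMk contDiff_id), h2⟩, rfl⟩

noncomputable def sg (r : ℝ) : ℝ := smoothTransition (3 * r - 1)

lemma sg_c (n : ℕ) : ContDiff ℝ n sg := smoothTransition.contDiff.comp (by fun_prop)
lemma sg0 {r : ℝ} (h : r ≤ 1 / 3) : sg r = 0 := smoothTransition.zero_of_nonpos (by linarith)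
lemma sg1 {r : ℝ} (h : 2 / 3 ≤ r) : sg r = 1 := smoothTransition.one_of_one_le (by linarith)
lemma sgn (r : ℝ) : 0 ≤ sg r := smoothTransition.nonneg _
lemma sgl (r : ℝ) : sg r ≤ 1 := smoothTransition.le_one _

lemma sgb : ∃ C ≥ 1, ∀ r, |r| ≤ 2 → (|sg r| ≤ C ∧ |deriv sg r| ≤ C ∧ |deriv (deriv sg) r| ≤ C) ∧
    ∀ r', |r'| ≤ 2 → |sg r' - sg r| ≤ C * |r' - r| ∧ |deriv sg r' - deriv sg r| ≤ C * |r' - r| ∧
      |deriv (deriv sg) r' - deriv (deriv sg) r| ≤ C * |r' - r| := by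
  have h1 : ContDiff ℝ 2 (deriv sg) := ContDiff.deriv' (sg_c 3)
  have h2 := (c1 h1).continuous_deriv le_rfl
  obtain ⟨C, hC⟩ := (isCompact_Icc (a := (-2 : ℝ)) (b := 2)).exists_bound_of_continuousOn
    (f := fun r => 1 + |deriv sg r| + |deriv (deriv sg) r| + |deriv (deriv (deriv sg)) r|)
    (((continuous_const.add h1.continuous.abs).add (d2 h1).continuous.abs).add h2.abs).continuousOn
  have h3 : ∀ r, |r| ≤ 2 → 1 ≤ C ∧ |deriv sg r| ≤ C ∧ |deriv (deriv sg) r| ≤ C ∧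
      |deriv (deriv (deriv sg)) r| ≤ C := fun r hr => by
    have := (le_abs_self _).trans (hC r (abs_le.1 hr))
    have := abs_nonneg (deriv sg r)
    have := abs_nonneg (deriv (deriv sg) r)
    have := abs_nonneg (deriv (deriv (deriv sg)) r)
    exact ⟨by linarith, by linarith, by linarith, by linarith⟩
  have h4 : ∀ u : ℝ → ℝ, Differentiable ℝ u → (∀ r, |r| ≤ 2 → |deriv u r| ≤ C) → ∀ r r', |r| ≤ 2 →
      |r'| ≤ 2 → |u r' - u r| ≤ C * |r' - r| := fun u hu h r r' hr hr' => by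
    obtain ⟨ξ, hξ, e⟩ := mvt hu r r'
    rw [e, abs_mul]
    exact mul_le_mul_of_nonneg_right (h ξ (abs_le.2
      (Set.uIcc_subset_Icc (abs_le.1 hr) (abs_le.1 hr') hξ))) (abs_nonneg _)
  exact ⟨C, (h3 0 (by simp)).1, fun r hr => ⟨⟨(abs_le.2 ⟨by linarith [sgn r], sgl r⟩).trans
    (h3 r hr).1, (h3 r hr).2.1, (h3 r hr).2.2.1⟩, fun r' hr' =>
    ⟨h4 _ (d1 (sg_c 2)) (fun r h => (h3 r h).2.1) _ _ hr hr',
    h4 _ (d1 h1) (fun r h => (h3 r h).2.2.1) _ _ hr hr',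
    h4 _ (d2 h1) (fun r h => (h3 r h).2.2.2) _ _ hr hr'⟩⟩⟩

noncomputable def L (g : ℝ → ℝ) (β r v : ℝ) : ℝ := v + sg r * (g v - β - v)

lemma L_pos (hg : g ∈ P2) (r v : ℝ) : 0 < 1 + sg r * (deriv g v - 1) := by
  have := pos hg v
  have := sgn r
  rcases (sgl r).eq_or_lt with h | h <;> nlinarith

lemma L_der (hg : g ∈ P2) (β r v : ℝ) : HasDerivAt (L g β r) (1 + sg r * (deriv g v - 1)) v :=
  (hasDerivAt_id v).add ((((d1 hg.1 v).hasDerivAt.sub_const β).sub (hasDerivAt_id v)).const_mul _)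

lemma L_mono (hg : g ∈ P2) (β r : ℝ) : StrictMono (L g β r) :=
  strictMono_of_deriv_pos fun v => (L_der hg β r v).deriv ▸ L_pos hg r v

lemma glue (hg : g ∈ P2) (β γ : ℝ) : ∃ K : ℝ → ℝ → ℝ, (∀ t, ContDiff ℝ 2 (K t)) ∧
    ∀ t ξ u (n : ℤ), -1 / 3 < γ * ξ + (t - n) → γ * ξ + (t - n) < 4 / 3 →
      (K t ξ = u ↔ ξ + n * β = L g β (γ * ξ + (t - n)) ((g ^ n) u)) := by
  have h1 : ∀ r, (L g β r).Surjective := fun r y => by
    have := sgn r
    have := sgl r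
    refine intermediate_value_univ (min y (g⁻¹ (y + β))) (max y (g⁻¹ (y + β)))
      (continuous_iff_continuousAt.2 fun v => (L_der hg β r v).continuousAt) ⟨?_, ?_⟩
    · have := hg.2.2.monotone (min_le_right y (g⁻¹ (y + β)))
      rw [show g (g⁻¹ (y + β)) = y + β by simp] at this
      unfold L; nlinarith [min_le_left y (g⁻¹ (y + β))]
    · have := hg.2.2.monotone (le_max_right y (g⁻¹ (y + β)))
      rw [show g (g⁻¹ (y + β)) = y + β by simp] at this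
      unfold L; nlinarith [le_max_left y (g⁻¹ (y + β))]
  let E : ℝ → Equiv.Perm ℝ := fun y => tr (-(⌊y⌋ * β)) *
    Equiv.ofBijective _ ⟨(L_mono hg β (y - ⌊y⌋)).injective, h1 _⟩ * g ^ ⌊y⌋
  have h2 : ∀ (y u : ℝ) (n : ℤ), -1 / 3 < y - n → y - n < 4 / 3 →
      E y u = L g β (y - n) ((g ^ n) u) - n * β := fun y u n h3 h4 => by
    have h5 := Int.floor_le y
    have h6 := Int.lt_floor_add_one y
    have h7 : n < ⌊y⌋ + 2 := by exact_mod_cast (by linarith : (n : ℝ) < ⌊y⌋ + 2)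
    have h8 : ⌊y⌋ < n + 2 := by exact_mod_cast (by linarith : (⌊y⌋ : ℝ) < n + 2)
    change L g β (y - ⌊y⌋) ((g ^ ⌊y⌋) u) + -(⌊y⌋ * β) = _
    generalize ⌊y⌋ = m at *
    obtain rfl | rfl | rfl : n = m + 1 ∨ n = m ∨ m = n + 1 := by omega
    · push_cast at *
      rw [L, L, sg1 (by linarith), sg0 (by linarith), add_comm m, zpow_one_add,
        Equiv.Perm.mul_apply]; ring
    · ring
    · push_cast at *
      rw [L, L, sg0 (by linarith), sg1 (by linarith), add_comm n, zpow_one_add,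
        Equiv.Perm.mul_apply]; ring
  have h3 : ContDiff ℝ 2 fun p : ℝ × ℝ => E p.1 p.2 := contDiff_iff_contDiffAt.2 fun p => by
    have h4 := (zpow_mem hg ⌊p.1⌋).1.comp (contDiff_snd (E := ℝ))
    refine ContDiffAt.congr_of_eventuallyEq (f := fun x : ℝ × ℝ =>
      L g β (x.1 - ⌊p.1⌋) ((g ^ ⌊p.1⌋) x.2) - ⌊p.1⌋ * β) (((h4.add (((sg_c 2).comp (by fun_prop)).mul
      (((hg.1.comp h4).sub contDiff_const).sub h4))).sub contDiff_const).contDiffAt) ?_
    filter_upwards [(continuous_fst.sub continuous_const).continuousAt.eventually (Ioo_mem_nhds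
      (show -1 / 3 < p.1 - ⌊p.1⌋ by linarith [Int.floor_le p.1])
      (show p.1 - ⌊p.1⌋ < 4 / 3 by linarith [Int.lt_floor_add_one p.1]))] with x hx
    exact h2 _ _ _ hx.1 hx.2
  refine ⟨fun t ξ => (E (γ * ξ + t))⁻¹ ξ, fun t => (pinv2 E h3 fun y u => ?_).comp
    (f := fun ξ => (γ * ξ + t, ξ)) (by fun_prop), fun t ξ u n h4 h5 => ?_⟩
  · have h4 := zpow_mem hg ⌊y⌋
    exact ((((L_der hg β _ _).comp u (d1 h4.1 u).hasDerivAt).add_const _).deriv.trans_gt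
      (mul_pos (L_pos hg _ _) (pos h4 u))).ne'
  · rw [← add_sub_assoc] at *
    rw [Equiv.Perm.inv_eq_iff_eq, h2 _ _ n h4 h5, eq_sub_iff_add_eq]

lemma impl {z v s e : ℝ → ℝ} (hz : ContDiff ℝ 2 z) (hv : ContDiff ℝ 2 v) (hs : ContDiff ℝ 2 s)
    (he : ContDiff ℝ 2 e) {x c γ d : ℝ}
    (h : ∀ᶠ ξ in 𝓝 x, z ξ + c = v ξ + s (γ * z ξ + d) * e (v ξ)) :
    deriv z x = deriv v x * (1 + s (γ * z x + d) * deriv e (v x)) +
      γ * deriv s (γ * z x + d) * deriv z x * e (v x) ∧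
    deriv (deriv z) x = deriv (deriv v) x * (1 + s (γ * z x + d) * deriv e (v x)) +
      s (γ * z x + d) * deriv (deriv e) (v x) * deriv v x ^ 2 +
      2 * γ * deriv s (γ * z x + d) * deriv e (v x) * deriv z x * deriv v x +
      γ ^ 2 * deriv (deriv s) (γ * z x + d) * deriv z x ^ 2 * e (v x) +
      γ * deriv s (γ * z x + d) * deriv (deriv z) x * e (v x) := by
  have a1 := fun ξ => ((d1 hz ξ).hasDerivAt.const_mul γ).add_const d
  have a2 := fun ξ => (d1 hs _).hasDerivAt.comp ξ (a1 ξ)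
  have a3 := fun ξ => (d1 he _).hasDerivAt.comp ξ (d1 hv ξ).hasDerivAt
  have h1 := EventuallyEq.deriv h
  rw [funext fun ξ => ((d1 hz ξ).hasDerivAt.add_const c).deriv, show deriv (fun ξ => v ξ +
    s (γ * z ξ + d) * e (v ξ)) = _ from
    funext fun ξ => ((d1 hv ξ).hasDerivAt.add ((a2 ξ).mul (a3 ξ))).deriv] at h1
  have h2 := h1.deriv_eq.trans ((d2 hv x).hasDerivAt.add (((((d2 hs _).hasDerivAt.comp x (a1 x)).mul
    ((d2 hz x).hasDerivAt.const_mul γ)).mul (a3 x)).add ((a2 x).mul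
    (((d2 he _).hasDerivAt.comp x (d1 hv x).hasDerivAt).mul (d2 hv x).hasDerivAt)))).deriv
  have h3 := h1.eq_of_nhds
  simp only [Function.comp, Pi.mul_apply] at h2 h3
  exact ⟨by linear_combination h3, by linear_combination h2⟩

end Pool.Agent.H.MP_76c0db_an
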