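import Pool.Agent.H.MP_76c0db_an.C

set_option autoImplicit false

namespace Pool.Agent.H.MP_76c0db_an

open scoped Topology
open Filter Real
open Pool.Agent.H.MP_fb0356_an (tr tr_apply tr_inv tr_add)

variable {f g : Equiv.Perm ℝ}

lemma am {a b A B : ℝ} (h1 : |a| ≤ A) (h2 : |b| ≤ B) : |a * b| ≤ A * B :=
  abs_mul a b ▸ mul_le_mul h1 h2 (abs_nonneg _) ((abs_nonneg _).trans h1)

lemma near (hg : g ∈ P2) {κ R x v : ℝ} (h : ∀ u, |nl g u| ≤ κ) (h1 : deriv g x = 1)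
    (hv : |v - x| ≤ R) (hR : κ * R ≤ 1 / 2) :
    |deriv g v - 1| ≤ 2 * κ * R ∧ |deriv (deriv g) v| ≤ 2 * κ := by
  have h0 := (abs_nonneg _).trans (h 0)
  have h2 := (log_lip hg h x v).trans (mul_le_mul_of_nonneg_left hv h0)
  rw [h1, log_one, sub_zero] at h2
  have h3 := Real.abs_exp_sub_one_le (h2.trans (by linarith))
  rw [exp_log (pos hg v)] at h3
  have h4 := am (h v) (show |deriv g v| ≤ 2 from abs_le.2 ⟨by linarith [pos hg v],
    by linarith [(abs_le.1 h3).2]⟩)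
  rw [nl, div_mul_cancel₀ _ (pos hg v).ne'] at h4
  exact ⟨by linarith, by linarith⟩

def SB (C : ℝ) : Prop :=
  ∀ r, |r| ≤ 2 → (|sg r| ≤ C ∧ |deriv sg r| ≤ C ∧ |deriv (deriv sg) r| ≤ C) ∧
    ∀ r', |r'| ≤ 2 → |sg r' - sg r| ≤ C * |r' - r| ∧ |deriv sg r' - deriv sg r| ≤ C * |r' - r| ∧
      |deriv (deriv sg) r' - deriv (deriv sg) r| ≤ C * |r' - r|

def EB (g : ℝ → ℝ) (β η v : ℝ) : Prop :=
  |g v - β - v| ≤ η ∧ |deriv g v - 1| ≤ η ∧ |deriv (deriv g) v| ≤ η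

lemma impl' (hg : g ∈ P2) {z v : ℝ → ℝ} (hz : ContDiff ℝ 2 z) (hv : ContDiff ℝ 2 v)
    {x c β γ d : ℝ} (h : ∀ᶠ ξ in 𝓝 x, z ξ + c = L g β (γ * z ξ + d) (v ξ)) :
    deriv z x = deriv v x * (1 + sg (γ * z x + d) * (deriv g (v x) - 1)) +
      γ * deriv sg (γ * z x + d) * deriv z x * (g (v x) - β - v x) ∧
    deriv (deriv z) x = deriv (deriv v) x * (1 + sg (γ * z x + d) * (deriv g (v x) - 1)) +
      sg (γ * z x + d) * deriv (deriv g) (v x) * deriv v x ^ 2 +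
      2 * γ * deriv sg (γ * z x + d) * (deriv g (v x) - 1) * deriv z x * deriv v x +
      γ ^ 2 * deriv (deriv sg) (γ * z x + d) * deriv z x ^ 2 * (g (v x) - β - v x) +
      γ * deriv sg (γ * z x + d) * deriv (deriv z) x * (g (v x) - β - v x) := by
  have := impl (e := fun v => g v - β - v) hz hv (sg_c 2)
    ((hg.1.sub contDiff_const).sub contDiff_id) h
  rwa [show deriv (fun v => g v - β - v) = fun v => deriv g v - 1 from funext fun v =>
    (((d1 hg.1 v).hasDerivAt.sub_const β).sub (hasDerivAt_id v)).deriv, deriv_sub_const] at this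

lemma Kest (hg : g ∈ P2) {v : ℝ → ℝ} (hv : ContDiff ℝ 2 v) {C η x c β γ d : ℝ} (hC : SB C)
    (h : ∀ᶠ ξ in 𝓝 x, ξ + c = L g β (γ * ξ + d) (v ξ)) (hr : |γ * x + d| ≤ 2) (hγ : |γ| ≤ 1)
    (he : EB g β η (v x)) (hη : C * η ≤ 1 / 10) :
    4 / 5 ≤ deriv v x ∧ deriv v x ≤ 5 / 4 ∧ |deriv (deriv v) x| ≤ 6 * (C * η) := by
  obtain ⟨h1, h2⟩ := impl' hg (z := fun x => x) contDiff_id hv h
  obtain ⟨s0, s1, s2⟩ := (hC _ hr).1
  simp only [deriv_id'', deriv_const] at h1 h2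
  have a1 := abs_le.1 (am s0 he.2.1)
  have a2 := abs_le.1 (am (am hγ s1) he.1)
  have h3 : 4 / 5 ≤ deriv v x := not_lt.1 fun h => by nlinarith
  have h4 : deriv v x ≤ 5 / 4 := not_lt.1 fun h => by nlinarith
  have h5 : |deriv v x| ≤ 5 / 4 := abs_le.2 ⟨by linarith, h4⟩
  have a3 := abs_le.1 (am (le_refl |deriv (deriv v) x|) ((am s0 he.2.1).trans hη))
  have a4 := abs_le.1 (am (am (am s0 he.2.2) h5) h5)
  have a5 := abs_le.1 (am (am (am hγ s1) he.2.1) h5)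
  have a6 := abs_le.1 (am (am (am hγ hγ) s2) he.1)
  have : |deriv (deriv v) x| ≤ |deriv (deriv v) x| / 10 + 27 / 5 * (C * η) :=
    abs_le.2 ⟨by linarith, by linarith⟩
  exact ⟨h3, h4, by linarith⟩

lemma Zest (hg : g ∈ P2) {z v : ℝ → ℝ} (hz : ContDiff ℝ 2 z) (hv : ContDiff ℝ 2 v)
    {C η x c β γ d t : ℝ} (hC : SB C) (h : ∀ᶠ ξ in 𝓝 x, ξ + c = L g β (γ * ξ + (t + d)) (v ξ))
    (h' : ∀ᶠ ξ in 𝓝 x, z ξ + c = L g β (γ * z ξ + d) (v ξ)) (hr : |γ * x + (t + d)| ≤ 2)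
    (hr' : |γ * z x + d| ≤ 2) (hγ : |γ| ≤ 1) (he : EB g β η (v x)) (hη : C * η ≤ 1 / 10)
    (ht : |t| ≤ 1) :
    |deriv z x - 1| ≤ 5 * (C * η * |t|) ∧ |deriv (deriv z) x| ≤ 20 * (C * η * |t|) := by
  obtain ⟨k1, k2, k3⟩ := Kest hg hv hC h hr hγ he hη
  obtain ⟨h1, h2⟩ := impl' hg (z := fun x => x) contDiff_id hv h
  obtain ⟨h3, h4⟩ := impl' hg hz hv h'
  simp only [deriv_id'', deriv_const] at h1 h2
  obtain ⟨s0, s1, s2⟩ := (hC _ hr).2 _ hr'
  obtain ⟨-, r1, r2⟩ := (hC _ hr').1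
  have C0 := (abs_nonneg _).trans r1
  have η0 := (abs_nonneg _).trans he.1
  have t0 := abs_nonneg t
  have h5 : |γ * z x + d - (γ * x + (t + d))| ≤ |z x - x| + |t| := by
    rw [show γ * z x + d - (γ * x + (t + d)) = γ * (z x - x) - t by ring]
    exact (abs_sub _ _).trans (by linarith [am hγ (le_refl |z x - x|)])
  have h6 := am (s0.trans (mul_le_mul_of_nonneg_left h5 C0)) he.1
  rw [show (sg (γ * z x + d) - sg (γ * x + (t + d))) * (g (v x) - β - v x) = z x - x by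
    have := h.self_of_nhds; have := h'.self_of_nhds; unfold L at *; linarith] at h6
  have h7 := mul_le_mul_of_nonneg_left (h5.trans (show _ ≤ 2 * |t| by
    nlinarith [abs_nonneg (z x - x)])) C0
  replace s0 := s0.trans h7
  replace s1 := s1.trans h7
  replace s2 := s2.trans h7
  have v1 : |deriv v x| ≤ 5 / 4 := abs_le.2 ⟨by linarith, k2⟩
  have v2 : |deriv (deriv v) x| ≤ 1 := by linarith
  have R1 : _ ≤ (1 / 10 : ℝ) := (am (am hγ r1) he.1).trans (by linarith)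
  have R2 : _ ≤ (1 / 10 : ℝ) := (am (am hγ r1) he.2.1).trans (by linarith)
  have R3 : _ ≤ (1 / 10 : ℝ) := (am (am (am hγ hγ) r2) he.1).trans (by linarith)
  have a1 := abs_le.1 (am v1 (am s0 he.2.1))
  have a2 := abs_le.1 (am R1 (le_refl |deriv z x - 1|))
  have a3 := abs_le.1 (am (am hγ s1) he.1)
  have : |deriv z x - 1| ≤ |deriv z x - 1| / 10 + 9 / 2 * (C * η * |t|) :=
    abs_le.2 ⟨by linarith, by linarith⟩
  have w1 : |deriv z x - 1| ≤ 5 * (C * η * |t|) := by linarith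
  have w2 : |deriv z x + 1| ≤ 5 / 2 := by
    have := abs_le.1 (w1.trans (show _ ≤ 1 / 2 by nlinarith [mul_nonneg C0 η0]))
    exact abs_le.2 ⟨by linarith, by linarith⟩
  have b1 := abs_le.1 (am R1 (le_refl |deriv (deriv z) x|))
  have b2 := abs_le.1 (am v2 (am s0 he.2.1))
  have b3 := abs_le.1 (am (am (am s0 he.2.2) v1) v1)
  have b4 := abs_le.1 (am v1 (am R2 w1))
  have b5 := abs_le.1 (am v1 (am (am hγ s1) he.2.1))
  have b6 := abs_le.1 (am (am R3 w1) w2)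
  have b7 := abs_le.1 (am (am (am hγ hγ) s2) he.1)
  have := mul_nonneg (mul_nonneg C0 η0) t0
  have : |deriv (deriv z) x| ≤ |deriv (deriv z) x| / 10 + 18 * (C * η * |t|) :=
    abs_le.2 ⟨by linarith, by linarith⟩
  exact ⟨w1, by linarith⟩

end Pool.Agent.H.MP_76c0db_an
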