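import Pool.Agent.H.MP_76c0db_an.D

set_option autoImplicit false

namespace Pool.Agent.H.MP_76c0db_an

open scoped Topology
open Filter Real
open Pool.Agent.H.MP_fb0356_an (tr tr_apply tr_inv tr_add)

variable {f g : Equiv.Perm ℝ}

lemma loc {K : ℝ → ℝ} (hK : Continuous K) {γ d x : ℝ} (h1 : -1 / 3 < γ * K x + d)
    (h2 : γ * K x + d < 4 / 3) : ∀ᶠ ξ in 𝓝 x, -1 / 3 < γ * K ξ + d ∧ γ * K ξ + d < 4 / 3 :=
  ((continuous_const.mul hK).add continuous_const).continuousAt.eventually (Ioo_mem_nhds h1 h2)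

theorem step1 {θ : ℝ} (hθ : 0 < θ) : ∃ κ > 0, ∀ a ∈ P2, ∀ b ∈ P2, Commute a b → a 0 = 1 →
    (∀ u, u + 1 ≤ a u) → (∀ u, b u < u) → (∀ u, u < b (a u)) → (∀ u, |nl a u| ≤ κ) →
    (∀ u, |nl b u| ≤ κ) → ∃ k ∈ P2, k⁻¹ * a * k = tr 1 ∧ k⁻¹ * b * k ∈ D2 ∧
      ∀ x, |nl ⇑(k⁻¹ * b * k) x| ≤ θ := by
  obtain ⟨C, C1, hC⟩ := sgb
  obtain ⟨κ, κ0, κ1, κ2⟩ : ∃ κ > 0, C * (32 * κ) ≤ 1 / 10 ∧ 2100 * (C * κ) ≤ θ := by
    refine ⟨min (1 / 320) (θ / 2100) / C, by positivity, ?_, ?_⟩ <;> field_simp <;>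
      linarith [min_le_left (1 / 320) (θ / 2100), min_le_right (1 / 320) (θ / 2100)]
  refine ⟨κ, κ0, fun a ha b hb hab a0 a1 b1 b2 na nb => ?_⟩
  have κ3 : κ ≤ C * κ := by nlinarith
  have a2 : deriv a 0 = 1 := sub_eq_zero.1 (IsLocalMin.hasDerivAt_eq_zero (f := fun u => a u - u)
    (Eventually.of_forall fun u => by linarith [a1 u]) ((d1 ha.1 0).hasDerivAt.sub (hasDerivAt_id 0)))
  have a3 : ∀ v, |v| ≤ 4 → |deriv a v - 1| ≤ 2 * κ * 4 ∧ _ := fun v hv =>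
    near ha na a2 (by rwa [sub_zero]) (by linarith)
  have a4 : ∀ v, |v| ≤ 4 → EB a 1 (32 * κ) v := fun v hv => by
    obtain ⟨ξ, hξ, e⟩ := mvt (d1 ha.1) 0 v
    have := am (a3 ξ (abs_le.2 (Set.uIcc_subset_Icc (by norm_num) (abs_le.1 hv) hξ))).1 hv
    rw [show (deriv a ξ - 1) * v = a v - 1 - v by linarith] at this
    exact ⟨by linarith, by linarith [(a3 v hv).1], by linarith [(a3 v hv).2]⟩
  obtain ⟨K, K1, K2⟩ := glue ha 1 (-1)
  have K3 : ∀ (x : ℝ) (n : ℤ), 0 ≤ -x - n → -x - n ≤ 1 → (-2 ≤ (a ^ n) (K 0 x) ∧ (a ^ n) (K 0 x) ≤ 0) ∧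
      4 / 5 ≤ deriv (⇑(a ^ n) ∘ K 0) x ∧ deriv (⇑(a ^ n) ∘ K 0) x ≤ 5 / 4 ∧
      |deriv (deriv (⇑(a ^ n) ∘ K 0)) x| ≤ 6 * (C * (32 * κ)) := fun x n h1 h2 => by
    have h3 := (loc (γ := -1) (d := 0 - n) (x := x) continuous_id (by simp only [id]; linarith)
      (by simp only [id]; linarith)).mono fun ξ h => (K2 0 ξ _ n h.1 h.2).1 rfl
    have h4 := h3.self_of_nhds
    have h5 : -2 ≤ (a ^ n) (K 0 x) ∧ (a ^ n) (K 0 x) ≤ 0 := by
      constructor <;> rw [← (L_mono ha 1 (-1 * x + (0 - n))).le_iff_le, ← h4, L]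
      · nlinarith [(abs_le.1 (a4 (-2) (by norm_num)).1).2, sgl (-1 * x + (0 - n)), a1 (-2)]
      · rw [a0]; linarith
    exact ⟨h5, Kest ha ((zpow_mem ha n).1.comp (K1 0)) hC h3 (abs_le.2 ⟨by linarith, by linarith⟩)
      (by simp) (a4 _ (abs_le.2 ⟨le_trans (by norm_num) h5.1, h5.2.trans (by norm_num)⟩)) κ1⟩
  have K4 : ∀ x, K 0 (x + 1) = a (K 0 x) := fun x => by
    have h1 := Int.floor_le (-x)
    have h2 := Int.lt_floor_add_one (-x)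
    have := (K2 0 x _ ⌊-x⌋ (by linarith) (by linarith)).1 rfl
    rw [K2 0 _ _ (⌊-x⌋ - 1) (by push_cast; linarith) (by push_cast; linarith),
      ← Equiv.Perm.mul_apply, ← zpow_add_one, sub_add_cancel]
    push_cast
    rw [show -1 * (x + 1) + (0 - (⌊-x⌋ - 1)) = -1 * x + (0 - ⌊-x⌋) by ring, ← this]; ring
  obtain ⟨k, hk, e⟩ := mkP2 (K1 0) (fun x => by
    have h1 := (K3 x ⌊-x⌋ (by linarith [Int.floor_le (-x)])
      (by linarith [Int.lt_floor_add_one (-x)])).2.1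
    rw [deriv_comp x (d1 (zpow_mem ha _).1 _) (d1 (K1 0) x)] at h1
    exact (mul_pos_iff_of_pos_left (pos (zpow_mem ha ⌊-x⌋) _)).1 (by linarith))
    one_pos fun x => K4 x ▸ a1 _
  have K5 : ∀ x, -1 ≤ x → x ≤ 0 → (-2 ≤ k x ∧ k x ≤ 0) ∧ 4 / 5 ≤ deriv k x ∧ deriv k x ≤ 5 / 4 ∧
      |nl k x| ≤ 240 * (C * κ) := fun x h1 h2 => by
    obtain ⟨h3, h4, h5, h6⟩ := K3 x 0 (by simpa) (by push_cast; linarith)
    simp only [zpow_zero, Equiv.Perm.coe_one, Function.id_comp, id, ← e] at h3 h4 h5 h6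
    refine ⟨h3, h4, h5, ?_⟩
    rw [nl, abs_div, abs_of_pos (pos hk x), div_le_iff₀ (pos hk x)]
    nlinarith
  have e1 : k⁻¹ * a * k = tr 1 := by
    ext x; exact Equiv.Perm.inv_eq_iff_eq.2 (by rw [e]; exact (K4 x).symm)
  have K6 : ∀ c ∈ P2, (∀ v, -2 ≤ v → v ≤ 0 → |nl c v| ≤ 3 * κ) → c 0 - c (-2) ≤ 4 → ∀ x, -1 ≤ x →
      x ≤ 0 → -1 ≤ (k⁻¹ * c * k) x → (k⁻¹ * c * k) x ≤ 0 → |nl ⇑(k⁻¹ * c * k) x| ≤ θ := by
    intro c hc nc c0 x h1 h2 h3 h4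
    have hG := mul_mem (mul_mem (inv_mem hk) hc) hk
    have e2 : k * (k⁻¹ * c * k) = c * k := by group
    have e3 := nl_mul hk hG x
    have e4 := D_mul hk hG x
    rw [e2, nl_mul hc hk] at e3
    rw [e2, D_mul hc hk] at e4
    obtain ⟨k1, k2, k3, k4⟩ := K5 x h1 h2
    obtain ⟨-, k5, -, k6⟩ := K5 _ h3 h4
    obtain ⟨ξ, hξ, e5⟩ := mvt (d1 hc.1) (-2) 0
    rw [Set.uIcc_of_le (by norm_num)] at hξ
    have h5 := (log_lip' hc ξ (k x) fun v hv => let h := Set.uIcc_subset_Icc hξ k1 hv;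
      nc v h.1 h.2).trans (mul_le_mul_of_nonneg_left (show _ ≤ 2 from
      abs_le.2 ⟨by linarith [hξ.2], by linarith [hξ.1]⟩) (by positivity))
    have h6 := Real.abs_exp_sub_one_le (h5.trans (by linarith))
    have h7 := pos hc ξ
    rw [exp_sub, exp_log (pos hc _), exp_log h7] at h6
    have h8 := (div_le_iff₀ h7).1 (show deriv c (k x) / deriv c ξ ≤ 2 by linarith [(abs_le.1 h6).2])
    have h9 : |deriv ⇑(k⁻¹ * c * k) x| ≤ 7 := by
      have := pos hG x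
      have := pos hc (k x)
      exact abs_le.2 ⟨by linarith, by nlinarith⟩
    have h10 := abs_le.1 (am k6 h9)
    have h11 := abs_le.1 (am (nc _ k1.1 k1.2) (show |deriv k x| ≤ 5 / 4 from
      abs_le.2 ⟨by linarith, k3⟩))
    have := abs_le.1 k4
    exact abs_le.2 ⟨by linarith, by linarith⟩
  have e2 : k⁻¹ * b * k * tr 1 = k⁻¹ * (b * a) * k := by rw [← e1]; group
  have e3 : tr 1 * (k⁻¹ * b * k) = k⁻¹ * (b * a) * k := by rw [← e1, ← hab.eq]; group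
  have hg : k⁻¹ * b * k ∈ D2 := ⟨mul_mem (mul_mem (inv_mem hk) hb) hk,
    fun x => congrArg (· x) (e2.trans e3.symm)⟩
  refine ⟨k, hk, e1, hg, fun x0 => ?_⟩
  obtain ⟨x, hx, e4⟩ := (show Function.Periodic (nl ⇑(k⁻¹ * b * k)) 1 from fun x => by
    simp only [nl, per1 hg x, per2 hg x]).exists_mem_Ico one_pos x0 (-1)
  have h1 : (k⁻¹ * b * k) x < x := hk.2.2.lt_iff_lt.1 (by simpa using b1 _)
  have h2 : x < (k⁻¹ * (b * a) * k) x := hk.2.2.lt_iff_lt.1 (by simpa using b2 _)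
  have h3 := hx.1
  have h4 : x < 0 := by simpa using hx.2
  rw [e4]
  rcases le_total (-1) ((k⁻¹ * b * k) x) with h | h
  · refine K6 b hb (fun v _ _ => by linarith [nb v]) ?_ x h3 h4.le h (by linarith)
    linarith [b1 0, b2 (-4), hb.2.2.monotone (show a (-4) ≤ -2 by
      linarith [(abs_le.1 (a4 (-4) (by norm_num)).1).2])]
  · have := K6 (b * a) (mul_mem hb ha) (fun v h1 h2 => ?_) ?_ x h3 h4.le (by linarith)
      (by rw [← e3, Equiv.Perm.mul_apply, tr_apply]; linarith)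
    · rwa [← e3, nl, show ⇑(tr 1 * (k⁻¹ * b * k)) = fun x => (k⁻¹ * b * k) x + 1 from rfl,
        deriv_add_const'] at this
    · rw [nl_mul hb ha]
      have h5 := abs_le.1 (a3 v (abs_le.2 ⟨by linarith, by linarith⟩)).1
      have := abs_le.1 (am (nb (a v)) (show |deriv a v| ≤ 2 from abs_le.2 ⟨by linarith, by linarith⟩))
      have := abs_le.1 (na v)
      exact abs_le.2 ⟨by linarith, by linarith⟩
    · simp only [Equiv.Perm.mul_apply]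
      linarith [b1 (a 0), b2 (-2)]

end Pool.Agent.H.MP_76c0db_an
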