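import Pool.Agent.H.MP_76c0db_an.E

set_option autoImplicit false

namespace Pool.Agent.H.MP_76c0db_an

open scoped Topology
open Filter Real
open Pool.Agent.H.MP_fb0356_an (tr tr_apply tr_inv tr_add tr_pow)

variable {f g : Equiv.Perm ℝ}

lemma tr_zpow (n : ℤ) : tr 1 ^ n = tr n := by
  obtain ⟨k, rfl | rfl⟩ := n.eq_nat_or_neg <;> simp [tr_pow]

lemma aff (c : ℝ) {m : ℝ} (hm : 0 < m) : ∃ S ∈ P2, ⇑S = fun u => c + m * u :=
  mkP2 (ρ := 1) (by fun_prop) (fun x => by simpa using hm) hm fun x => by linarith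

lemma lin (hg : g ∈ D2) {η β x0 : ℝ} (h : ∀ x, |deriv g x - 1| ≤ η) (h0 : g x0 = x0 + β) (v : ℝ) :
    |g v - β - v| ≤ η := by
  obtain ⟨w, hw, e⟩ := (show Function.Periodic (fun v => g v - β - v) 1 from fun x => by
    simp only [hg.2]; ring).exists_mem_Ico one_pos v x0
  obtain ⟨ξ, -, e1⟩ := mvt (d1 hg.1.1) x0 w
  have := am (h ξ) (show |w - x0| ≤ 1 from abs_le.2 ⟨by linarith [hw.1], by linarith [hw.2]⟩)
  rwa [show (deriv g ξ - 1) * (w - x0) = g w - β - w by linarith, mul_one, ← e] at this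

theorem step2 {ε : ℝ} (hε : 0 < ε) : ∃ θ > 0, ∀ g ∈ D2, (∀ x, |nl g x| ≤ θ) → (∀ x, g x ≤ x) →
    ∀ (q q' : ℕ) (p p' : ℤ), q ≤ q' → 12 ≤ q' → p' * q - p * q' = 1 → ∃ h ∈ P2,
      h * (tr 1 ^ (q' : ℤ) * g ^ (-q : ℤ)) * h⁻¹ = tr 1 ∧ ∀ x,
      |deriv ⇑(h * (tr 1 ^ p' * g ^ (-p)) * h⁻¹) x - 1| ≤ ε ∧
      |deriv (deriv ⇑(h * (tr 1 ^ p' * g ^ (-p)) * h⁻¹)) x| ≤ ε := by
  obtain ⟨C, C1, hC⟩ := sgb
  obtain ⟨θ, θ0, θ1, θ2⟩ : ∃ θ > 0, C * (2 * θ) ≤ 1 / 24 ∧ 20 * (C * (2 * θ)) ≤ ε := by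
    refine ⟨min (1 / 48) (ε / 40) / C, by positivity, ?_, ?_⟩ <;> field_simp <;>
      linarith [min_le_left (1 / 48) (ε / 40), min_le_right (1 / 48) (ε / 40)]
  refine ⟨θ, θ0, fun g hg ng g0 q q' p p' h1 h2 h3 => ?_⟩
  have θ3 : θ ≤ C * θ := by nlinarith
  have g1 : ∀ v, |deriv g v - 1| ≤ 2 * θ * 1 ∧ _ := fun v => by
    obtain ⟨ξ, hξ, e⟩ := mvt (d1 hg.1.1) v (v + 1)
    exact near hg.1 ng (x := ξ) (by rw [hg.2] at e; linarith)
      (by simpa [abs_sub_comm v] using Set.abs_sub_left_of_mem_uIcc hξ) (by linarith)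
  simp only [mul_one] at g1
  have g2 : ∀ v, EB g (g 0) (2 * θ) v := fun v =>
    ⟨lin hg (fun v => (g1 v).1) (zero_add _).symm v, g1 v⟩
  have g3 := g0 0
  generalize g 0 = β at g2 g3
  have g4 : ∀ r v, |L g β r v - v| ≤ 1 / 24 := fun r v => by
    rw [L, add_sub_cancel_left]
    linarith [am (show |sg r| ≤ 1 from abs_le.2 ⟨by linarith [sgn r], sgl r⟩) (g2 v).1]
  obtain ⟨ρ, hρ⟩ : ∃ ρ : ℝ, ρ = q' - q * β := ⟨_, rfl⟩
  have q0 : (0 : ℝ) ≤ q := by positivity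
  have ρ1 : (q' : ℝ) ≤ ρ := by nlinarith
  have ρ2 : (12 : ℝ) ≤ ρ := le_trans (by exact_mod_cast h2) ρ1
  have γ0 : 0 ≤ q / ρ := by positivity
  have γ1 : q / ρ ≤ 1 := (div_le_one (by linarith)).2 (le_trans (by exact_mod_cast h1) ρ1)
  have γ2 : q / ρ * ρ = q := by field_simp
  have t2 : -(1 / ρ) * ρ = -1 := by field_simp
  have t0 : -(1 / ρ) ≤ 0 := neg_nonpos.2 (by positivity)
  have t1 : -(1 / 12) ≤ -(1 / ρ) := neg_le_neg (one_div_le_one_div_of_le (by norm_num) ρ2)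
  generalize q / ρ = γ at *
  generalize -(1 / ρ) = t at *
  have γ3 : |γ| ≤ 1 := abs_le.2 ⟨by linarith, γ1⟩
  obtain ⟨K, K1, K2⟩ := glue hg.1 β γ
  have K3 : ∀ (m j : ℤ) t t' ξ, t' = t + γ * (m - j * β) - j →
      K t (ξ + (m - j * β)) = (tr 1 ^ m * g ^ (-j)) (K t' ξ) := fun m j t t' ξ e => by
    have h4 := Int.floor_le (γ * ξ + t')
    have h5 := Int.lt_floor_add_one (γ * ξ + t')
    generalize ⌊γ * ξ + t'⌋ = n at h4 h5
    have := (K2 t' ξ _ n (by linarith) (by linarith)).1 rfl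
    have e1 : γ * (ξ + (m - j * β)) + (t - (n + j : ℤ)) = γ * ξ + (t' - n) := by push_cast; linarith
    rw [K2 _ _ _ (n + j) (by linarith) (by linarith), e1, tr_zpow, Equiv.Perm.mul_apply, tr_apply,
      D2_int (zpow_mem hg _), ← Equiv.Perm.mul_apply, ← zpow_add, add_neg_cancel_right, L, D2_int hg]
    unfold L at this; push_cast; linarith
  have K4 : ∀ t x (n : ℤ), -1 / 3 < γ * x + (t - n) → γ * x + (t - n) < 4 / 3 →
      ∀ᶠ ξ in 𝓝 x, ξ + n * β = L g β (γ * ξ + (t - n)) ((⇑(g ^ n) ∘ K t) ξ) := fun t x n h4 h5 =>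
    (loc continuous_id h4 h5).mono fun ξ h => (K2 t ξ _ n h.1 h.2).1 rfl
  have K5 : ∀ x, K 0 (x + ρ) = (tr 1 ^ (q' : ℤ) * g ^ (-q : ℤ)) (K 0 x) := fun x => by
    rw [← K3 q' q 0 0 x (by push_cast; rw [← hρ]; linarith), hρ]; push_cast; rfl
  obtain ⟨k, hk, e⟩ := mkP2 (K1 0) (fun x => by
    have h4 := Int.floor_le (γ * x)
    have h5 := Int.lt_floor_add_one (γ * x)
    have h6 := (Kest hg.1 ((zpow_mem hg.1 _).1.comp (K1 0)) hC (K4 0 x ⌊γ * x⌋ (by linarith)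
      (by linarith)) (abs_le.2 ⟨by linarith, by linarith⟩) γ3 (g2 _) (by linarith)).1
    rw [deriv_comp x (d1 (zpow_mem hg.1 _).1 _) (d1 (K1 0) x)] at h6
    exact (mul_pos_iff_of_pos_left (pos (zpow_mem hg.1 ⌊γ * x⌋) _)).1 (by linarith))
    one_pos (ρ := ρ) fun x => by
      have h4 : ∀ (n : ℕ) u, (g ^ n) u ≤ u := fun n u => by
        induction n with
        | zero => rfl
        | succ n ih => rw [pow_succ']; exact (g0 _).trans ih
      have h5 := h4 q ((g ^ q)⁻¹ (K 0 x))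
      have h6 : (12 : ℝ) ≤ q' := by exact_mod_cast h2
      rw [K5, tr_zpow, zpow_neg, zpow_natCast]
      simp at h5 ⊢; linarith
  obtain ⟨s, hs, es⟩ := aff 0 (show 0 < ρ by linarith)
  have hz : ContDiff ℝ 2 (⇑k⁻¹ ∘ K t) := hk.2.1.comp (K1 t)
  have Z : ∀ x, |deriv (⇑k⁻¹ ∘ K t) x - 1| ≤ 5 * (C * (2 * θ) * |t|) ∧
      |deriv (deriv (⇑k⁻¹ ∘ K t)) x| ≤ 20 * (C * (2 * θ) * |t|) := fun x => by
    have h4 := Int.floor_le (γ * x + t)
    have h5 := Int.lt_floor_add_one (γ * x + t)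
    generalize ⌊γ * x + t⌋ = n at h4 h5
    have h6 := K4 t x n (by linarith) (by linarith)
    have h7 := abs_le.1 (h6.self_of_nhds ▸ g4 _ _)
    have h8 := abs_le.1 ((K4 0 (x + 1 / 12) n (by linarith) (by linarith)).self_of_nhds ▸ g4 _ _)
    have h9 := abs_le.1 ((K4 0 (x - 1 / 12) n (by linarith) (by linarith)).self_of_nhds ▸ g4 _ _)
    have hm := (mul_mem (zpow_mem hg.1 n) hk).2.2
    have h10 : k⁻¹ (K t x) ≤ x + 1 / 12 := hm.le_iff_le.1 (by simp [← e] at *; linarith)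
    have h11 : x - 1 / 12 ≤ k⁻¹ (K t x) := hm.le_iff_le.1 (by simp [← e] at *; linarith)
    have h12 : -1 / 3 < γ * (⇑k⁻¹ ∘ K t) x + (0 - n) := by simp only [Function.comp]; nlinarith
    have h13 : γ * (⇑k⁻¹ ∘ K t) x + (0 - n) < 4 / 3 := by simp only [Function.comp]; nlinarith
    rw [show t - n = t + (0 - n) by ring] at h6
    exact Zest hg.1 hz ((zpow_mem hg.1 _).1.comp (K1 t)) hC h6 ((loc hz.continuous h12 h13).mono
      fun ξ h => (K2 0 _ _ n h.1 h.2).1 (by simp [← e])) (abs_le.2 ⟨by linarith, by linarith⟩)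
      (abs_le.2 ⟨by linarith, by linarith⟩) γ3 (g2 _) (by linarith)
      (abs_le.2 ⟨by linarith, by linarith⟩)
  have ρ0 : ρ ≠ 0 := by linarith
  refine ⟨(k * s)⁻¹, inv_mem (mul_mem hk hs), ?_, fun x => ?_⟩
  · ext x
    rw [mul_assoc, Equiv.Perm.mul_apply, Equiv.Perm.inv_eq_iff_eq, inv_inv, Equiv.Perm.mul_apply,
      Equiv.Perm.mul_apply k, Equiv.Perm.mul_apply k, e, es, ← K5, tr_apply]
    congr 1; ring
  have e1 : ⇑((k * s)⁻¹ * (tr 1 ^ p' * g ^ (-p)) * (k * s)⁻¹⁻¹) =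
      fun x => (⇑k⁻¹ ∘ K t) (ρ * x + (p' - p * β)) / ρ := funext fun x => by
    refine Equiv.Perm.inv_eq_iff_eq.2 ?_
    have h4 : (p' * q - p * q' : ℝ) = 1 := by exact_mod_cast h3
    rw [Function.comp, K3 p' p t 0 _ (mul_right_cancel₀ ρ0 (by
      linear_combination -h4 - t2 - (p' - p * β) * γ2 + p * hρ))]
    simp [e, es, mul_div_cancel₀ _ ρ0]
  have a1 := fun x => ((hasDerivAt_id x).const_mul ρ).add_const (p' - p * β)
  have e2 : deriv (fun x => (⇑k⁻¹ ∘ K t) (ρ * x + (p' - p * β)) / ρ) =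
      fun x => deriv (⇑k⁻¹ ∘ K t) (ρ * x + (p' - p * β)) := funext fun x =>
    (((d1 hz _).hasDerivAt.comp x (a1 x)).div_const ρ).deriv.trans (by simp [ρ0])
  rw [e1, e2, show deriv (fun x => deriv (⇑k⁻¹ ∘ K t) (ρ * x + (p' - p * β))) x = _ from
    ((d2 hz _).hasDerivAt.comp x (a1 x)).deriv]
  have h4 := Z (ρ * x + (p' - p * β))
  have h5 := am h4.2 (abs_of_pos (show 0 < ρ * 1 by linarith)).le
  rw [abs_of_nonpos t0] at h4 h5
  exact ⟨h4.1.trans (by nlinarith), h5.trans (by nlinarith)⟩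

lemma tr_P2 (r : ℝ) : tr r ∈ P2 :=
  ⟨contDiff_id.add contDiff_const, by rw [tr_inv]; exact contDiff_id.add contDiff_const,
    fun x y h => by simpa using h⟩

lemma nl_conj {S : Equiv.Perm ℝ} (hS : S ∈ P2) {c m : ℝ} (e : ⇑S = fun u => c + m * u)
    (hg : g ∈ P2) (r u : ℝ) : nl ⇑(S⁻¹ * (tr r * g) * S) u = nl g (S u) * m := by
  have h1 : deriv S = fun _ => m := funext fun x => by simp [e]
  have h2 : ∀ x, nl S x = 0 := fun x => by simp [nl, h1]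
  have h3 := mul_mem (tr_P2 r) hg
  have h4 := nl_mul hS (mul_mem (mul_mem (inv_mem hS) h3) hS) u
  rw [show S * (S⁻¹ * (tr r * g) * S) = tr r * g * S by group, nl_mul h3 hS, h2, h2, h1, nl,
    show ⇑(tr r * g) = fun x => g x + r from rfl, deriv_add_const'] at h4
  simpa [nl] using h4.symm

lemma cj {G : Type} [Group G] (u x y : G) (n n' : ℤ) :
    (u⁻¹ * x * u) ^ n * (u⁻¹ * y * u) ^ n' = u⁻¹ * (x ^ n * y ^ n') * u := by
  have := fun x k => conj_zpow (a := u⁻¹) (b := x) (i := k)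
  simp only [inv_inv] at this
  rw [this, this]; group

lemma gam {G : Type} [Group G] {T f : G} (h : Commute T f) (m j m' j' n n' : ℤ) :
    (T ^ m * f ^ j) ^ n * (T ^ m' * f ^ j') ^ n' = T ^ (m * n + m' * n') * f ^ (j * n + j' * n') := by
  rw [(h.zpow_zpow _ _).mul_zpow, (h.zpow_zpow _ _).mul_zpow, zpow_add, zpow_add,
    (h.zpow_zpow _ _).mul_mul_mul_comm]
  group

theorem main (hf : f ∈ D2) (hG : ∀ N, ∃ q q' p p', N < q ∧ Good f q q' p p') {ε : ℝ} (hε : 0 < ε) :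
    ∃ H ∈ D2, ∀ x, |deriv ⇑(H * f * H⁻¹) x - 1| ≤ ε ∧ |deriv (deriv ⇑(H * f * H⁻¹)) x| ≤ ε := by
  obtain ⟨θ, θ0, h2⟩ := step2 hε
  obtain ⟨κ, κ0, h1⟩ := step1 θ0
  obtain ⟨M, M0, hM⟩ := key1 hf 1 κ0
  obtain ⟨N, hN⟩ := small hf hG M0
  obtain ⟨q, q', p, p', h3, h⟩ := hG (N + 12)
  have hq := pow_mem hf q
  have hq' := pow_mem hf q'
  obtain ⟨x0, hx⟩ := exmax (u := fun x => x - (f ^ q) x) (continuous_id.sub hq.1.1.continuous)
    fun x => by simp only [hq.2]; ring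
  obtain ⟨m, hm⟩ : ∃ m, m = (f ^ q) x0 - p - x0 := ⟨_, rfl⟩
  have m0 : 0 < m := by linarith [h.2.2.1 x0]
  have h4 : ∀ l ≤ q', ∀ y, |nl ⇑(f ^ l) y * m| ≤ κ := fun l hl y => by
    rw [abs_mul, abs_of_pos m0]
    refine hM l m (fun y z hz => ?_) y
    wlog h5 : y ≤ z generalizing y z
    · simpa only [abs_sub_comm] using this z y (by rwa [abs_sub_comm]) (by linarith)
    have h6 : z ≤ (f ^ q) y - p := by linarith [hx y, (abs_le.1 hz).2]
    exact ⟨fun i => (itv hf h5 h6 i).trans (hN q q' p p' (by omega) h _), sum2 hf h h5 h6 hl⟩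
  obtain ⟨S, hS, e⟩ := aff x0 m0
  have hT : Commute (tr 1) f := by ext x; exact (hf.2 x).symm
  have h5 : ∀ u v (r : ℝ) (g : Equiv.Perm ℝ), (S⁻¹ * (tr r * g) * S) u < v ↔ g (S u) + r < S v :=
    fun u v r g => by rw [← hS.2.2.lt_iff_lt]; simp
  have h6 : ∀ u v (r : ℝ) (g : Equiv.Perm ℝ), v < (S⁻¹ * (tr r * g) * S) u ↔ S v < g (S u) + r :=
    fun u v r g => by rw [← hS.2.2.lt_iff_lt]; simp
  have h7 : ∀ u, (S⁻¹ * (tr (-p' : ℤ) * f ^ q') * S) u < u := fun u =>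
    (h5 ..).2 (by rw [Int.cast_neg]; linarith [h.2.2.2.1 (S u)])
  have h9 := fun n n' => cj S (tr 1 ^ (-p) * f ^ (q : ℤ)) (tr 1 ^ (-p') * f ^ (q' : ℤ)) n n'
  have h10 := cj S (tr 1 ^ (-p') * f ^ (q' : ℤ)) (tr 1 ^ (-p) * f ^ (q : ℤ)) 1 1
  simp only [gam hT] at h9 h10
  rw [add_comm, add_comm (q' * 1 : ℤ), ← h9] at h10
  have h11 := h9 q' (-q)
  have h12 := h9 p' (-p)
  rw [show -p * q' + -p' * -q = 1 by linarith [h.2.1], show (q * q' + q' * -q : ℤ) = 0 by ring] at h11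
  rw [show q * p' + q' * -p = 1 by linarith [h.2.1], show -p * p' + -p' * -p = 0 by ring] at h12
  simp only [zpow_one, zpow_zero, mul_one, one_mul, tr_zpow, zpow_natCast f] at h10 h11 h12
  obtain ⟨k, hk, e1, hg, h8⟩ := h1 (S⁻¹ * (tr (-p : ℤ) * f ^ q) * S)
    (mul_mem (mul_mem (inv_mem hS) (mul_mem (tr_P2 _) hq.1)) hS)
    (S⁻¹ * (tr (-p' : ℤ) * f ^ q') * S)
    (mul_mem (mul_mem (inv_mem hS) (mul_mem (tr_P2 _) hq'.1)) hS) h10.symm
    (Equiv.Perm.inv_eq_iff_eq.2 (by simp [e, hm]; ring))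
    (fun u => not_lt.1 fun h => by
      have := (h5 ..).1 h
      have h9 := hx (S u)
      simp only [e, Int.cast_neg] at this h9; linarith)
    h7 (fun u => (h6 ..).2 (by
      have := h.2.2.2.2 (S u)
      rw [add_comm q, pow_add] at this
      simp only [Equiv.Perm.mul_apply, Equiv.Perm.coe_inv, Equiv.apply_symm_apply, tr_apply,
        D2_int hq', Int.cast_add] at this ⊢
      simp only [Int.cast_neg]; linarith))
    (fun u => nl_conj hS e hq.1 _ u ▸ h4 q h.1 _) fun u => nl_conj hS e hq'.1 _ u ▸ h4 q' le_rfl _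
  obtain ⟨H, hH, e2, h13⟩ := h2 _ hg h8 (fun x => hk.2.2.le_iff_le.1 (by simpa using (h7 (k x)).le))
    q q' p p' h.1 (by have := h.1; omega) h.2.1
  rw [← e1, cj, h12] at h13
  nth_rw 1 [← e1] at e2
  rw [cj, h11] at e2
  have e3 : H * k⁻¹ * S⁻¹ * tr 1 = tr 1 * (H * k⁻¹ * S⁻¹) := by nth_rw 2 [← e2]; group
  refine ⟨H * k⁻¹ * S⁻¹, ⟨mul_mem (mul_mem hH (inv_mem hk)) (inv_mem hS),
    fun x => congrArg (· x) e3⟩, ?_⟩
  rwa [show H * k⁻¹ * S⁻¹ * f * (H * k⁻¹ * S⁻¹)⁻¹ = H * (k⁻¹ * (S⁻¹ * f * S) * k) * H⁻¹ by group]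

theorem final (F : CircleDeg1Lift) (h1 : ContDiff ℝ 2 (F : ℝ → ℝ)) (h2 : ∀ x, 0 < deriv F x)
    (h3 : Irrational F.translationNumber) (ε : ℝ) (hε : 0 < ε) :
    ∃ H : CircleDeg1Lift, ∃ Hinv : ℝ → ℝ, ContDiff ℝ 2 (H : ℝ → ℝ) ∧ (∀ x, 0 < deriv H x) ∧
      Function.LeftInverse Hinv H ∧ Function.RightInverse Hinv H ∧ ∀ x : ℝ,
        |H (F (Hinv x)) - x - F.translationNumber| < ε ∧
        |deriv (fun y : ℝ => H (F (Hinv y))) x - 1| < ε ∧
        |deriv (deriv (fun y : ℝ => H (F (Hinv y)))) x| < ε := by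
  obtain ⟨f, hf, e⟩ := mkP2 h1 h2 one_pos fun x => (F.map_add_one x).ge
  have hf' : f ∈ D2 := ⟨hf, fun x => by rw [e, F.map_add_one]⟩
  have e1 : ∀ (n : ℕ) x, (f ^ n) x = (F ^ n) x := fun n x => by
    rw [Equiv.Perm.coe_pow, CircleDeg1Lift.coe_pow, e]
  obtain ⟨H, hH, h⟩ := main hf' (fun N => by
    obtain ⟨q, q', p, p', h4, h5, h6, h7, h8, h9⟩ := farey h3 N
    refine ⟨q, q', p, p', h4, h5, h6, fun x => ?_, fun x => ?_, fun x => ?_⟩ <;> rw [e1]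
    · exact (F ^ q).lt_map_of_int_lt_translationNumber (by rwa [F.translationNumber_pow]) x
    · exact (F ^ q').map_lt_of_translationNumber_lt_int (by rwa [F.translationNumber_pow]) x
    · exact (F ^ (q + q')).lt_map_of_int_lt_translationNumber
        (by rw [F.translationNumber_pow]; exact_mod_cast h9) x) (half_pos hε)
  have hG := mul_mem (mul_mem hH hf') (inv_mem hH)
  let H' : CircleDeg1Lift := ⟨⟨H, hH.1.2.2.monotone⟩, hH.2⟩
  let G : CircleDeg1Lift := ⟨⟨⇑(H * f * H⁻¹), hG.1.2.2.monotone⟩, hG.2⟩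
  obtain ⟨x0, hx⟩ := G.exists_eq_add_translationNumber hG.1.1.continuous
  rw [← CircleDeg1Lift.translationNumber_eq_of_semiconjBy (f := H') (g₁ := F) (by
    ext x; change H (F x) = H (f (H⁻¹ (H x))); simp [e])] at hx
  refine ⟨H', ⇑H⁻¹, hH.1.1, pos hH.1, H.symm_apply_apply, H.apply_symm_apply, fun x => ?_⟩
  rw [← e]
  refine ⟨?_, (h x).1.trans_lt (half_lt_self hε), (h x).2.trans_lt (half_lt_self hε)⟩
  rw [sub_right_comm]
  exact (lin hG (fun x => (h x).1) hx x).trans_lt (half_lt_self hε)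

end Pool.Agent.H.MP_76c0db_an
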